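import Pool.Agent.H40.Onto

set_option autoImplicit false

namespace Pool.Agent.Results.MP_c90ce4_lc.EmbedsInS42

open Pool.Agent.H40.Onto

/-- Some modal formula `χ(p, q)` gives a translation embedding `L₁` in `S4.2`. -/
theorem result : ∃ F : MF (Fin 2), ∀ p : ℕ → ℕ, Function.Injective p →
    ∀ φ : LF, L1 φ ↔ S42 (tr p F φ) :=
  ⟨FF (.var 0) (.var 1), s42_embeds⟩

end Pool.Agent.Results.MP_c90ce4_lc.EmbedsInS42
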